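import Pool.Agent.W93.GB4
import Pool.Agent.V7H38.TS.Spec

set_option autoImplicit false

/-! # Project TS: Goldbach's problem for almost all even numbers -/

namespace Pool.Agent.V7H94.TS

open Finset
open Pool.Agent.V7H38.TS (S_GOLD)
open Pool.Agent.H560R3.GB (sing C₂ HL g energy)
open Pool.Agent.W93.GB (Good fam C2_half)

lemma sing_ge (n : ℕ) : 1 ≤ sing n := by
  unfold sing
  have h1 := C2_half
  have h2 : 1 ≤ ∏ p ∈ n.primeFactors.filter (fun p => 2 < p), ((p : ℝ) - 1) / ((p : ℝ) - 2) := by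
    calc (1 : ℝ) = ∏ p ∈ n.primeFactors.filter (fun p => 2 < p), (1 : ℝ) := by rw [prod_const_one]
      _ ≤ _ := by
        apply Finset.prod_le_prod (fun _ _ => zero_le_one)
        intro p hp
        have h3 : (2 : ℝ) < p := by exact_mod_cast (mem_filter.1 hp).2
        rw [le_div_iff₀ (by linarith)]
        linarith
  nlinarith

lemma g_le (a : ℕ) : g a ≤ (Pool.Agent.V7H38.TS.reps a).card := by
  unfold g Pool.Agent.V7H38.TS.reps
  apply card_le_card_of_injOn (fun q => q.1)
  · rintro ⟨u, v⟩ hq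
    rw [mem_coe, mem_filter, Finset.HasAntidiagonal.mem_antidiagonal] at hq
    obtain ⟨h1, h2, h3⟩ := hq
    simp only at h1 h2 h3
    rw [mem_coe, mem_filter, mem_range]
    refine ⟨by simp only; omega, h2, ?_⟩
    have : a - u = v := by omega
    simp only
    rw [this]
    exact h3
  · rintro ⟨u, v⟩ hq ⟨u', v'⟩ hq' h
    rw [mem_coe, mem_filter, Finset.HasAntidiagonal.mem_antidiagonal] at hq hq'
    have h1 := hq.1
    have h2 := hq'.1
    simp only at h1 h2 h
    ext
    · exact h
    · simp only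
      omega

lemma en_le (x : ℕ) : energy 1 x (fun m => 2 * m) ≤ x := by
  have : energy 1 x (fun m => 2 * m) ≤ (Icc 1 x).card := by
    unfold energy
    apply card_le_card_of_injOn (fun q => q.1 0)
    · intro q hq
      rw [mem_coe, mem_filter, mem_product] at hq
      exact (Fintype.mem_piFinset.1 hq.1.1) 0
    · intro a ha b hb hab
      rw [mem_coe, mem_filter] at ha hb
      have e1 := ha.2
      have e2 := hb.2
      simp only [Fin.sum_univ_one] at e1 e2
      simp only at hab
      have e3 : a.1 = b.1 := by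
        funext i
        rw [Subsingleton.elim i 0]
        exact hab
      have e4 : a.2 = b.2 := by
        funext i
        rw [Subsingleton.elim i 0]
        omega
      exact Prod.ext e3 e4
  rw [Nat.card_Icc, Nat.add_sub_cancel] at this
  exact this

/-- GOLD. -/
theorem t_GOLD : S_GOLD := by
  intro U
  obtain ⟨N₀, hf⟩ := fam 1 3 0 (U + 1) le_rfl (1 / 2) (by norm_num)
  have ev : ∀ᶠ X : ℕ in Filter.atTop, (3 : ℝ) ≤ Real.log X :=
    (Real.tendsto_log_atTop.comp tendsto_natCast_atTop_atTop).eventually_ge_atTop 3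
  obtain ⟨X₁, hX₁⟩ := Filter.eventually_atTop.1 ev
  refine ⟨max (max N₀ X₁) 3, fun X hX T hT hbad => ?_⟩
  have hXN : N₀ ≤ 3 * X := by omega
  have hX3 : 3 ≤ X := by omega
  have hL := hX₁ X (by omega)
  have hXr : (3 : ℝ) ≤ X := by exact_mod_cast hX3
  have hXpos : (0 : ℝ) < X := by linarith
  have hL3 : Real.log ((3 * X : ℕ) : ℝ) ≤ 2 * Real.log X := by
    push_cast
    rw [Real.log_mul (by norm_num) hXpos.ne']
    have := Real.log_le_log (by norm_num) hXr
    linarith
  have hL3' : Real.log X ≤ Real.log ((3 * X : ℕ) : ℝ) := by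
    apply Real.log_le_log hXpos
    push_cast
    linarith
  have hLpos : 0 < Real.log X := by linarith
  have key := hf (3 * X) hXN (3 * X) (fun m => 2 * m) ?_ ?_ (T.image (fun a => a / 2)) ?_ ?_
  · have hcard : (T.image (fun a => a / 2)).card = T.card := by
      apply card_image_of_injOn
      intro a ha b hb hab
      obtain ⟨u, hu⟩ := (hbad a ha).1
      obtain ⟨v, hv⟩ := (hbad b hb).1
      simp only at hab
      omega
    rw [hcard] at key
    refine key.trans ?_
    rw [div_le_div_iff₀ (pow_pos (hLpos.trans_le hL3') _) (pow_pos hLpos _)]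
    have h1 : Real.log X ^ (U + 1) ≤ Real.log ((3 * X : ℕ) : ℝ) ^ (U + 1) :=
      pow_le_pow_left₀ hLpos.le hL3' _
    have h2 : (0 : ℝ) < Real.log X ^ U := by positivity
    calc ((3 * X : ℕ) : ℝ) * Real.log X ^ U = X * (3 * Real.log X ^ U) := by push_cast; ring
      _ ≤ X * (Real.log X * Real.log X ^ U) := by
          apply mul_le_mul_of_nonneg_left _ hXpos.le
          exact mul_le_mul_of_nonneg_right hL h2.le
      _ = X * Real.log X ^ (U + 1) := by ring
      _ ≤ X * Real.log ((3 * X : ℕ) : ℝ) ^ (U + 1) := mul_le_mul_of_nonneg_left h1 hXpos.le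
  · intro m hm
    rw [mem_Icc] at hm
    exact ⟨by omega, Dvd.intro _ rfl⟩
  · have h1 : (energy 1 (3 * X) (fun m => 2 * m) : ℝ) ≤ ((3 * X : ℕ) : ℝ) := by
      exact_mod_cast en_le (3 * X)
    rw [pow_zero, one_mul]
    calc (energy 1 (3 * X) (fun m => 2 * m) : ℝ) * ((3 * X : ℕ) : ℝ)
        ≤ ((3 * X : ℕ) : ℝ) * ((3 * X : ℕ) : ℝ) := mul_le_mul_of_nonneg_right h1 (Nat.cast_nonneg _)
      _ = _ := by ring
  · intro m hm
    rw [mem_image] at hm
    obtain ⟨a, ha, rfl⟩ := hm
    have h1 := mem_Icc.1 (hT ha)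
    rw [mem_Icc]
    omega
  · intro m hm hgood
    rw [mem_image] at hm
    obtain ⟨a, ha, rfl⟩ := hm
    have h1 := mem_Icc.1 (hT ha)
    obtain ⟨⟨u, hu⟩, hlt⟩ := hbad a ha
    have h2 : 2 * (a / 2) = a := by omega
    rw [h2] at hgood
    have h3 := (abs_le.1 hgood.1).1
    have haX : (X : ℝ) ≤ a := by exact_mod_cast h1.1
    have haX3 : (a : ℝ) ≤ ((3 * X : ℕ) : ℝ) := by exact_mod_cast h1.2
    have hla : Real.log a ≤ 2 * Real.log X := (Real.log_le_log (by linarith) haX3).trans hL3
    have hla0 : 0 < Real.log a := hLpos.trans_le (Real.log_le_log hXpos haX)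
    have h4 : (X : ℝ) / (4 * Real.log X ^ 2) ≤ a / Real.log a ^ 2 := by
      apply div_le_div₀ (by linarith) haX (by positivity)
      calc Real.log a ^ 2 ≤ (2 * Real.log X) ^ 2 := pow_le_pow_left₀ hla0.le hla 2
        _ = 4 * Real.log X ^ 2 := by ring
    have h5 : (a : ℝ) / Real.log a ^ 2 ≤ HL a := by
      unfold HL
      exact le_mul_of_one_le_left (by positivity) (sing_ge a)
    have h6 : (g a : ℝ) ≤ ((Pool.Agent.V7H38.TS.reps a).card : ℝ) := by exact_mod_cast g_le a
    have h7 : (X : ℝ) / (8 * Real.log X ^ 2) = (1 / 2) * (X / (4 * Real.log X ^ 2)) := by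
      field_simp
      ring
    rw [h7] at hlt
    linarith

end Pool.Agent.V7H94.TS
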